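import Mathlib

/-!
# The threshold `f(k+2,{k,1})` for weak `(k,1)`-sum-free sets in cyclic groups

For every `k ≥ 2` one has `f(k+2,{k,1}) ≥ 2k+4`, with equality when `k` is even.

Lower bound: let `A` be a weakly `(k,1)`-sum-free set of `m = k+2` elements of `ℤ_n`, let `s` be
the sum of `A`, and suppose `n < 2m`. There are no `a, b, c` in `A` with `b ≠ c` and
`a + b + c = s`. For `a` in `A` the sets `A` and `s - a - A` meet, and every common element `b`
satisfies `2b = s - a`. So `b ↦ s - 2b` maps `A` onto `A`, hence bijectively, the intersection has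
exactly one element, `n = 2m - 1`, and `A ∪ (s - a - A)` is everything. So `s - x - a` lies in `A`
for all `x` outside `A` and `a` in `A`, and the complement of `A` is a coset of a subgroup of order
`m - 1`, which does not divide `2m - 1`.
-/

open Finset

namespace Pool.Agent.Results.MP_043c16_co.EvenThreshold

/-- `A` is weakly `(k,l)`-sum-free: no sum of `k` distinct elements of `A` is a sum of `l` distinct
elements of `A`. -/
def WeaklySumFree {G : Type} [AddCommGroup G] (k l : ℕ) (A : Finset G) : Prop :=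
  ∀ S ⊆ A, ∀ T ⊆ A, S.card = k → T.card = l → ∑ x ∈ S, x ≠ ∑ x ∈ T, x

/-- The largest size of a weakly `(k,l)`-sum-free subset of `ℤ_n` (`n ≥ 1`). -/
noncomputable def muHat (n k l : ℕ) : ℕ :=
  sSup {c | ∃ A : Finset (ZMod n), WeaklySumFree k l A ∧ A.card = c}

/-- `f(m,{k,l})`: the least `n ≥ 1` such that the largest size in `ℤ_n` is at least `m`. -/
noncomputable def f (m k l : ℕ) : ℕ := sInf {n | 1 ≤ n ∧ m ≤ muHat n k l}

lemma WeaklySumFree.mono {G : Type} [AddCommGroup G] {k l : ℕ} {A B : Finset G}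
    (h : WeaklySumFree k l A) (hB : B ⊆ A) : WeaklySumFree k l B :=
  fun S hS T hT h1 h2 => h S (hS.trans hB) T (hT.trans hB) h1 h2

lemma bdd (n k l : ℕ) [NeZero n] :
    BddAbove {c | ∃ A : Finset (ZMod n), WeaklySumFree k l A ∧ A.card = c} := by
  refine ⟨n, ?_⟩
  rintro c ⟨A, -, rfl⟩
  calc A.card ≤ Fintype.card (ZMod n) := Finset.card_le_univ A
    _ = n := ZMod.card n

lemma exists_of_le {n k l m : ℕ} (hn : 1 ≤ n) (hm : 1 ≤ m) (h : m ≤ muHat n k l) :
    ∃ A : Finset (ZMod n), WeaklySumFree k l A ∧ A.card = m := by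
  haveI : NeZero n := ⟨by omega⟩
  have hne : {c | ∃ A : Finset (ZMod n), WeaklySumFree k l A ∧ A.card = c}.Nonempty := by
    by_contra hc
    rw [Set.not_nonempty_iff_eq_empty] at hc
    unfold muHat at h
    rw [hc] at h
    simp at h
    omega
  obtain ⟨A, hA, hc⟩ := Nat.sSup_mem hne (bdd n k l)
  have hle : m ≤ A.card := by
    rw [hc]; exact h
  obtain ⟨B, hB, hBc⟩ := Finset.exists_subset_card_eq hle
  exact ⟨B, hA.mono hB, hBc⟩

lemma le_of_exists {n k l m : ℕ} (hn : 1 ≤ n)
    (h : ∃ A : Finset (ZMod n), WeaklySumFree k l A ∧ A.card = m) : m ≤ muHat n k l := by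
  haveI : NeZero n := ⟨by omega⟩
  exact le_csSup (bdd n k l) h

/-- No three-term representation of the total sum. -/
lemma no_rep {G : Type} [AddCommGroup G] [DecidableEq G] {m : ℕ} (hm : 4 ≤ m) {A : Finset G}
    (hc : A.card = m) (hfree : WeaklySumFree (m - 2) 1 A) {a b c : G} (ha : a ∈ A) (hb : b ∈ A)
    (hcA : c ∈ A) (hbc : b ≠ c) : a + b + c ≠ ∑ x ∈ A, x := by
  intro h
  have hc' : c ∈ A.erase b := Finset.mem_erase.2 ⟨fun h => hbc h.symm, hcA⟩
  refine hfree ((A.erase b).erase c) ((Finset.erase_subset _ _).trans (Finset.erase_subset _ _))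
    {a} (by simpa using ha) ?_ (by simp) ?_
  · rw [Finset.card_erase_of_mem hc', Finset.card_erase_of_mem hb, hc]
    omega
  · have h1 := Finset.add_sum_erase A (fun x => x) hb
    have h2 := Finset.add_sum_erase (A.erase b) (fun x => x) hc'
    simp only [Finset.sum_singleton]
    have h3 : b + (c + ∑ x ∈ (A.erase b).erase c, x) = a + b + c := by
      rw [h2, h1, h]
    have h4 : ∑ x ∈ (A.erase b).erase c, x = (b + (c + ∑ x ∈ (A.erase b).erase c, x)) - b - c := by
      abel
    rw [h4, h3]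
    abel

theorem lower {n m : ℕ} [NeZero n] (hm : 4 ≤ m) (A : Finset (ZMod n)) (hc : A.card = m)
    (hfree : WeaklySumFree (m - 2) 1 A) : 2 * m ≤ n := by
  by_contra hlt
  push Not at hlt
  obtain ⟨s, hs⟩ : ∃ s, s = ∑ x ∈ A, x := ⟨_, rfl⟩
  have hrep : ∀ a ∈ A, ∀ b ∈ A, ∀ c ∈ A, b ≠ c → a + b + c ≠ s := by
    intro a ha b hb c hc' hbc
    rw [hs]
    exact no_rep hm hc hfree ha hb hc' hbc
  -- the reflected set
  have hinj : ∀ y : ZMod n, Function.Injective (fun x : ZMod n => y - x) := by
    intro y x x' h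
    simpa using h
  have hcard : ∀ y : ZMod n, (A.image (fun x => y - x)).card = m := by
    intro y
    rw [Finset.card_image_of_injective _ (hinj y), hc]
  have hun : ∀ y : ZMod n, (A ∪ A.image (fun x => y - x)).card ≤ n := by
    intro y
    calc _ ≤ Fintype.card (ZMod n) := Finset.card_le_univ _
      _ = n := ZMod.card n
  have hadd : ∀ y : ZMod n, (A ∪ A.image (fun x => y - x)).card +
      (A ∩ A.image (fun x => y - x)).card = m + m := by
    intro y
    rw [Finset.card_union_add_card_inter, hcard y, hc]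
  have hI : ∀ a ∈ A, ∀ b ∈ A ∩ A.image (fun x => (s - a) - x), s - (b + b) = a := by
    intro a ha b hb
    rw [Finset.mem_inter, Finset.mem_image] at hb
    obtain ⟨hbA, x, hx, hxb⟩ := hb
    by_cases hbx : b = x
    · subst hbx
      have : s - (b + b) = (s - a - b) - b + a := by abel
      rw [this, hxb]
      abel
    · exfalso
      refine hrep a ha b hbA x hx hbx ?_
      rw [← hxb]
      abel
  have hsub : A ⊆ A.image (fun b => s - (b + b)) := by
    intro a ha
    have h1 := hadd (s - a)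
    have h2 := hun (s - a)
    have h3 : 0 < (A ∩ A.image (fun x => (s - a) - x)).card := by omega
    obtain ⟨b, hb⟩ := Finset.card_pos.1 h3
    refine Finset.mem_image.2 ⟨b, (Finset.mem_inter.1 hb).1, hI a ha b hb⟩
  have heq : A = A.image (fun b => s - (b + b)) :=
    Finset.eq_of_subset_of_card_le hsub Finset.card_image_le
  have hinjOn : Set.InjOn (fun b => s - (b + b)) (A : Set (ZMod n)) := by
    apply Finset.card_image_iff.1
    rw [← heq]
  have hle1 : ∀ a ∈ A, (A ∩ A.image (fun x => (s - a) - x)).card ≤ 1 := by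
    intro a ha
    rw [Finset.card_le_one]
    intro b hb b' hb'
    apply hinjOn
    · exact Finset.mem_coe.2 (Finset.mem_inter.1 hb).1
    · exact Finset.mem_coe.2 (Finset.mem_inter.1 hb').1
    · show s - (b + b) = s - (b' + b')
      rw [hI a ha b hb, hI a ha b' hb']
  have hne : A.Nonempty := Finset.card_pos.1 (by omega)
  obtain ⟨a0, ha0⟩ := hne
  have hn : n = 2 * m - 1 := by
    have h1 := hadd (s - a0)
    have h2 := hun (s - a0)
    have h3 := hle1 a0 ha0
    omega
  have huniv : ∀ a ∈ A, A ∪ A.image (fun x => (s - a) - x) = Finset.univ := by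
    intro a ha
    apply Finset.eq_univ_of_card
    rw [ZMod.card n]
    have h1 := hadd (s - a)
    have h2 := hun (s - a)
    have h3 := hle1 a ha
    omega
  have hP : ∀ x, x ∉ A → ∀ a ∈ A, s - x - a ∈ A := by
    intro x hx a ha
    have : x ∈ A ∪ A.image (fun x => (s - a) - x) := by rw [huniv a ha]; exact Finset.mem_univ x
    rw [Finset.mem_union, Finset.mem_image] at this
    rcases this with h | ⟨z, hz, hzx⟩
    · exact absurd h hx
    · rw [← hzx]
      have : s - (s - a - z) - a = z := by abel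
      rw [this]
      exact hz
  have hinv : ∀ x, x ∉ A → ∀ x', x' ∉ A → ∀ w ∈ A, w + (x - x') ∈ A := by
    intro x hx x' hx' w hw
    have h1 := hP x hx w hw
    have h2 := hP x' hx' _ h1
    have : s - x' - (s - x - w) = w + (x - x') := by abel
    rw [this] at h2
    exact h2
  have hcompl : (Aᶜ).card = m - 1 := by
    rw [Finset.card_compl, ZMod.card n, hc]
    omega
  obtain ⟨x0, hx0⟩ := Finset.card_pos.1 (show 0 < (Aᶜ).card by omega)
  rw [Finset.mem_compl] at hx0
  let K : AddSubgroup (ZMod n) :=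
    { carrier := {u | u + x0 ∉ A}
      zero_mem' := by simpa using hx0
      add_mem' := by
        intro u v hu hv
        show u + v + x0 ∉ A
        intro h
        apply hv
        have := hinv x0 hx0 (u + x0) hu _ h
        have e : u + v + x0 + (x0 - (u + x0)) = v + x0 := by abel
        rw [e] at this
        exact this
      neg_mem' := by
        intro u hu
        show -u + x0 ∉ A
        intro h
        apply hx0
        have := hinv (u + x0) hu x0 hx0 _ h
        have e : -u + x0 + (u + x0 - x0) = x0 := by abel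
        rw [e] at this
        exact this }
  have hK : Nat.card K = m - 1 := by
    have e : K ≃ {x // x ∈ Aᶜ} :=
      (Equiv.addRight x0).subtypeEquiv (by
        intro u
        simp only [Finset.mem_compl, Equiv.coe_addRight]
        exact Iff.rfl)
    rw [Nat.card_congr e, Nat.card_eq_fintype_card, Fintype.card_coe, hcompl]
  have hdvd : Nat.card K ∣ Nat.card (ZMod n) := AddSubgroup.card_addSubgroup_dvd_card K
  rw [hK, Nat.card_zmod, hn] at hdvd
  have h2 : 2 * m - 1 = (m - 1) * 2 + 1 := by omega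
  rw [h2] at hdvd
  have h3 : (m - 1) ∣ 1 := (Nat.dvd_add_right (Dvd.intro 2 rfl)).1 hdvd
  have := Nat.le_of_dvd one_pos h3
  omega

/-- The residues which are `1` modulo `q` in `ℤ_{qm}`. -/
theorem upper {q m k : ℕ} (hq : 2 ≤ q) (hm : 1 ≤ m) (hk : 1 ≤ k) (hd : ¬ q ∣ k - 1) :
    ∃ A : Finset (ZMod (q * m)), WeaklySumFree k 1 A ∧ A.card = m := by
  have hpos : 0 < q * m := Nat.mul_pos (by omega) hm
  haveI : NeZero (q * m) := ⟨by omega⟩
  let φ : ZMod (q * m) →+* ZMod q := ZMod.castHom (Dvd.intro m rfl) (ZMod q)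
  refine ⟨(Finset.range m).image (fun i => ((q * i + 1 : ℕ) : ZMod (q * m))), ?_, ?_⟩
  · intro S hS T hT hSc hTc heq
    have hone : ∀ x ∈ (Finset.range m).image (fun i => ((q * i + 1 : ℕ) : ZMod (q * m))),
        φ x = 1 := by
      intro x hx
      obtain ⟨i, -, rfl⟩ := Finset.mem_image.1 hx
      rw [map_natCast]
      push_cast
      simp
    have h1 : φ (∑ x ∈ S, x) = (k : ZMod q) := by
      rw [map_sum, Finset.sum_congr rfl (fun x hx => hone x (hS hx))]
      simp [hSc]
    have h2 : φ (∑ x ∈ T, x) = 1 := by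
      rw [map_sum, Finset.sum_congr rfl (fun x hx => hone x (hT hx))]
      simp [hTc]
    rw [heq, h2] at h1
    apply hd
    have h3 : ((k - 1 : ℕ) : ZMod q) = 0 := by
      rw [Nat.cast_sub hk, ← h1]
      simp
    exact (ZMod.natCast_eq_zero_iff _ _).1 h3
  · rw [Finset.card_image_of_injOn, Finset.card_range]
    intro i hi j hj hij
    simp only [Finset.coe_range, Set.mem_Iio] at hi hj
    have hb : ∀ t, t < m → q * t + 1 < q * m := by
      intro t ht
      have : q * (t + 1) ≤ q * m := Nat.mul_le_mul_left q ht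
      rw [Nat.mul_add] at this
      omega
    have h := congrArg ZMod.val hij
    simp only at h
    rw [ZMod.val_natCast_of_lt (hb i hi), ZMod.val_natCast_of_lt (hb j hj)] at h
    have h' : q * i = q * j := by omega
    exact Nat.eq_of_mul_eq_mul_left (by omega) h'

theorem f_le {q k : ℕ} (hq : 2 ≤ q) (hk : 2 ≤ k) (hd : ¬ q ∣ k - 1) :
    f (k + 2) k 1 ≤ q * (k + 2) := by
  apply Nat.sInf_le
  have hpos : 1 ≤ q * (k + 2) := Nat.mul_pos (by omega) (by omega)
  exact ⟨hpos, le_of_exists hpos (upper hq (by omega) (by omega) hd)⟩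

theorem le_f {k : ℕ} (hk : 2 ≤ k) : 2 * k + 4 ≤ f (k + 2) k 1 := by
  have hne : {n | 1 ≤ n ∧ k + 2 ≤ muHat n k 1}.Nonempty := by
    have hpos : 1 ≤ k * (k + 2) := Nat.mul_pos (by omega) (by omega)
    refine ⟨k * (k + 2), hpos, le_of_exists hpos (upper hk (by omega) (by omega) ?_)⟩
    intro h
    have := Nat.le_of_dvd (by omega) h
    omega
  obtain ⟨h1, h2⟩ := Nat.sInf_mem hne
  obtain ⟨A, hA, hc⟩ := exists_of_le h1 (by omega) h2
  haveI : NeZero (sInf {n | 1 ≤ n ∧ k + 2 ≤ muHat n k 1}) := ⟨by omega⟩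
  have := lower (m := k + 2) (by omega) A hc (by simpa using hA)
  unfold f
  omega

/-- `f(k+2,{k,1}) ≥ 2k+4` for every `k ≥ 2`, and `f(k+2,{k,1}) ≤ q(k+2)` for every `q ≥ 2` which
does not divide `k-1`; so `f(k+2,{k,1}) = 2k+4` for every even `k ≥ 2`. -/
theorem result :
    (∀ k : ℕ, 2 ≤ k → 2 * k + 4 ≤ f (k + 2) k 1) ∧
    (∀ k q : ℕ, 2 ≤ k → 2 ≤ q → ¬ q ∣ k - 1 → f (k + 2) k 1 ≤ q * (k + 2)) ∧
    ∀ k : ℕ, 2 ≤ k → Even k → f (k + 2) k 1 = 2 * k + 4 := by
  refine ⟨fun k hk => le_f hk, fun k q hk hq hd => f_le hq hk hd, fun k hk he => ?_⟩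
  apply le_antisymm _ (le_f hk)
  have h : ¬ 2 ∣ k - 1 := by
    obtain ⟨r, hr⟩ := he
    omega
  have := f_le (q := 2) le_rfl hk h
  omega

end Pool.Agent.Results.MP_043c16_co.EvenThreshold
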